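import Pool.Agent.Y336.RW.Stm

/-!
Job RW-GRP of project RW (helper336): basic facts on the group law of `y² = x (x+5) (x-5)`.
-/

set_option autoImplicit false

open WeierstrassCurve

namespace Pool.Agent.Y921.RW

open Pool.Agent.Y336.RW Pool.Agent.H437R2.Man.MW

lemma q12 : (0 : ℚ) ≠ 5 := by norm_num
lemma q13 : (0 : ℚ) ≠ -5 := by norm_num
lemma q23 : (5 : ℚ) ≠ -5 := by norm_num

lemma eqn_iff {x y : ℚ} : (crv (0 : ℚ) 5 (-5)).toAffine.Equation x y ↔
    y ^ 2 = x ^ 3 - 25 * x := by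
  rw [crv_eqn]
  constructor <;> intro h <;> linear_combination h

lemma nonsing {x y : ℚ} (h : y ^ 2 = x ^ 3 - 25 * x) :
    (crv (0 : ℚ) 5 (-5)).toAffine.Nonsingular x y :=
  crv_nonsing q12 q13 q23 (by linear_combination h)

lemma zero_def : (Affine.Point.zero : E) = 0 := rfl

/-- case analysis -/
lemma cases_ne {R : E} (h : R ≠ 0) : ∃ (x y : ℚ)
    (hh : (crv (0 : ℚ) 5 (-5)).toAffine.Nonsingular x y), R = Affine.Point.some x y hh := by
  rcases R with _ | ⟨x, y, hh⟩
  · exact absurd rfl h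
  · exact ⟨x, y, hh, rfl⟩

lemma some_ne {x y : ℚ} (hh : (crv (0 : ℚ) 5 (-5)).toAffine.Nonsingular x y) :
    (Affine.Point.some x y hh : E) ≠ 0 := Affine.Point.some_ne_zero hh

lemma neg_some' {x y : ℚ} (h : (crv (0 : ℚ) 5 (-5)).toAffine.Nonsingular x y) :
    ∃ h' : (crv (0 : ℚ) 5 (-5)).toAffine.Nonsingular x (-y),
      -(Affine.Point.some x y h : E) = Affine.Point.some x (-y) h' := by
  have h' : (crv (0 : ℚ) 5 (-5)).toAffine.Nonsingular x (-y) := by
    apply nonsing
    have := eqn_iff.mp h.1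
    linear_combination this
  exact ⟨h', neg_mk h h'⟩

/-- a point with representative `![q, 1]` is affine with first coordinate `q` -/
lemma xc_of_rep {R : E} {q : ℚ} (h : R.xRep = ![q, 1]) : R ≠ 0 ∧ xc R = q := by
  rcases R with _ | ⟨x, y, hh⟩
  · exfalso
    have h1 := congrFun h 1
    rw [zero_def] at h1
    simp [Affine.Point.xRep_zero] at h1
  · refine ⟨some_ne hh, ?_⟩
    have h0 := congrFun h 0
    rw [Affine.Point.xRep_some] at h0
    simpa [xc] using h0

theorem grp : Grp := by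
  refine ⟨?_, ?_, ?_, ?_, ?_, ?_, ?_, ?_, ?_⟩
  · intro R hR
    obtain ⟨x, y, hh, rfl⟩ := cases_ne hR
    simpa [xc, yc] using eqn_iff.mp hh.1
  · intro x y h
    exact ⟨Affine.Point.some x y (nonsing h), some_ne _, rfl, rfl⟩
  · intro R S hR hS h
    obtain ⟨x, y, hh, rfl⟩ := cases_ne hR
    obtain ⟨x', y', hh', rfl⟩ := cases_ne hS
    have hx : x = x' := h
    subst hx
    have e1 := eqn_iff.mp hh.1
    have e2 := eqn_iff.mp hh'.1
    have : (y - y') * (y + y') = 0 := by linear_combination e1 - e2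
    rcases mul_eq_zero.mp this with h1 | h1
    · left
      have : y = y' := by linarith
      subst this
      rfl
    · right
      obtain ⟨h2, h3⟩ := neg_some' hh'
      rw [h3]
      have : y = -y' := by linarith
      subst this
      rfl
  · intro R S hR hS h h'
    obtain ⟨x, y, hh, rfl⟩ := cases_ne hR
    obtain ⟨x', y', hh', rfl⟩ := cases_ne hS
    have hx : x = x' := h
    have hy : y = y' := h'
    subst hx
    subst hy
    rfl
  · intro R hR
    obtain ⟨x, y, hh, rfl⟩ := cases_ne hR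
    obtain ⟨h2, h3⟩ := neg_some' hh
    rw [h3]
    exact ⟨some_ne _, rfl, rfl⟩
  · intro R hR h
    obtain ⟨x, y, hh, rfl⟩ := cases_ne hR
    have hy : y = 0 := h
    subst hy
    obtain ⟨h2, h3⟩ := neg_some' hh
    have : (Affine.Point.some x 0 hh : E) = -(Affine.Point.some x 0 hh : E) := by
      rw [h3]
      congr 1
      try norm_num
    nth_rewrite 2 [this]
    exact add_neg_cancel _
  · intro R hR h
    obtain ⟨x, y, hh, rfl⟩ := cases_ne hR
    have hy : y ≠ 0 := h
    have h1 := xRep_double hh hy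
    obtain ⟨h2, h3⟩ := xc_of_rep h1
    refine ⟨h2, ?_⟩
    rw [h3]
    show _ * (4 * y ^ 2) = (x ^ 2 + 25) ^ 2
    field_simp
    ring
  · intro R S hR hS h
    obtain ⟨x, y, hh, rfl⟩ := cases_ne hR
    obtain ⟨x', y', hh', rfl⟩ := cases_ne hS
    have hx : x ≠ x' := h
    have hx0 : x - x' ≠ 0 := sub_ne_zero.mpr hx
    have e1 := eqn_iff.mp hh.1
    have e2 := eqn_iff.mp hh'.1
    obtain ⟨a1, a2⟩ := xc_of_rep (xRep_add hh hh' hx)
    obtain ⟨hn, hn'⟩ := neg_some' hh'
    obtain ⟨b1, b2⟩ := xc_of_rep (xRep_add hh hn hx)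
    rw [← hn', ← sub_eq_add_neg] at b1 b2
    refine ⟨a1, b1, ?_, ?_⟩
    · rw [a2, b2]
      show (_ + _) * (x - x') ^ 2 = 2 * (x + x') * (x * x' - 25)
      simp only [numr]
      field_simp
      ring
    · rw [a2, b2]
      show _ * _ * (x - x') ^ 2 = (x * x' + 25) ^ 2
      simp only [numr]
      field_simp
      linear_combination (-4 * y' ^ 2) * e1 + (-4 * (x ^ 3 - 25 * x)) * e2
  · exact pt_fg q12 q13 q23

end Pool.Agent.Y921.RW
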