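import Pool.Agent.Y336.RW.Stm

/-!
Jobs RW-RED and RW-TOR of project RW (helper336): the kernel of reduction acts trivially on the
reduction; the torsion of `y² = x (x+5) (x-5)` is killed by 2.
-/

set_option autoImplicit false

open WeierstrassCurve

namespace Pool.Agent.Y921.RW

open Pool.Agent.Y336.RW

section norms

variable {p : ℕ} [Fact p.Prime]

lemma n_add {a b c : ℚ} (ha : padicNorm p a ≤ c) (hb : padicNorm p b ≤ c) :
    padicNorm p (a + b) ≤ c :=
  padicNorm.nonarchimedean.trans (max_le ha hb)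

lemma n_neg {a c : ℚ} (ha : padicNorm p a ≤ c) : padicNorm p (-a) ≤ c := by
  rwa [padicNorm.neg]

lemma n_sub {a b c : ℚ} (ha : padicNorm p a ≤ c) (hb : padicNorm p b ≤ c) :
    padicNorm p (a - b) ≤ c := by
  rw [sub_eq_add_neg]
  exact n_add ha (n_neg hb)

lemma n_mul {a b c d : ℚ} (ha : padicNorm p a ≤ c) (hb : padicNorm p b ≤ d) :
    padicNorm p (a * b) ≤ c * d := by
  rw [padicNorm.mul]
  exact mul_le_mul ha hb (padicNorm.nonneg _) ((padicNorm.nonneg _).trans ha)

lemma n_pow (a : ℚ) (n : ℕ) : padicNorm p (a ^ n) = padicNorm p a ^ n := by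
  induction n with
  | zero => simp
  | succ n ih => rw [pow_succ, padicNorm.mul, ih, pow_succ]

lemma n_int (m : ℤ) : padicNorm p (m : ℚ) ≤ 1 := padicNorm.of_int m

/-- products of integral elements -/
lemma n_mul1 {a b : ℚ} (ha : padicNorm p a ≤ 1) (hb : padicNorm p b ≤ 1) :
    padicNorm p (a * b) ≤ 1 := by
  simpa using n_mul ha hb

lemma n_pow1 {a : ℚ} (ha : padicNorm p a ≤ 1) (n : ℕ) : padicNorm p (a ^ n) ≤ 1 := by
  rw [n_pow]
  exact pow_le_one₀ (padicNorm.nonneg _) ha

end norms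

theorem red (g : Grp) : Red := by
  intro p hp D R hD hR hx
  have := Fact.mk hp
  rcases hD with rfl | hD
  · rw [add_zero]
    exact ⟨hR, by simp⟩
  have hD0 : D ≠ 0 := by
    rintro rfl
    have h0 : xc (0 : E) = 0 := rfl
    rw [h0] at hD
    simp at hD
    linarith
  have hne : xc R ≠ xc D := by
    intro h
    rw [← h] at hD
    linarith
  obtain ⟨h1, -, h2, h3⟩ := g.add R D hR hD0 hne
  refine ⟨h1, ?_⟩
  set x1 := xc R with hx1
  set x2 := xc D with hx2
  set z := xc (R + D) with hz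
  set z' := xc (R - D) with hz'
  set M := padicNorm p x2 with hM
  have hd : padicNorm p (x1 - x2) = M := by
    have : x1 - x2 = x1 + (-x2) := by ring
    rw [this, padicNorm.add_eq_max_of_ne, padicNorm.neg]
    · exact max_eq_right (by linarith)
    · rw [padicNorm.neg]
      intro h
      rw [h] at hx
      linarith
  have hM0 : 0 < M := by linarith
  have i25 : padicNorm p (25 : ℚ) ≤ 1 := by exact_mod_cast n_int (p := p) 25
  have i2 : padicNorm p (2 : ℚ) ≤ 1 := by exact_mod_cast n_int (p := p) 2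
  have i3 : padicNorm p (3 : ℚ) ≤ 1 := by exact_mod_cast n_int (p := p) 3
  have hx2' : padicNorm p (x1 ^ 2) ≤ 1 := n_pow1 hx 2
  have hx3' : padicNorm p (x1 ^ 3) ≤ 1 := n_pow1 hx 3
  -- first relation
  have r1 : (z + z' - 2 * x1) * (x1 - x2) ^ 2 =
      2 * (3 * x1 ^ 2 - 25) * x2 + 2 * (-(25 * x1) - x1 ^ 3) := by
    linear_combination h2
  have b1 : padicNorm p (z + z' - 2 * x1) * M ≤ 1 := by
    have e : padicNorm p ((z + z' - 2 * x1) * (x1 - x2) ^ 2) ≤ 1 * M := by
      rw [r1]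
      refine n_add (n_mul (n_mul1 i2 (n_sub (n_mul1 i3 hx2') i25)) le_rfl) ?_
      rw [one_mul]
      exact (n_mul1 i2 (n_sub (n_neg (n_mul1 i25 hx)) hx3')).trans hD.le
    rw [padicNorm.mul, n_pow, hd, one_mul] at e
    by_contra hc
    push Not at hc
    nlinarith [mul_lt_mul_of_pos_right hc hM0]
  have r2 : (z * z' - x1 ^ 2) * (x1 - x2) ^ 2 =
      (2 * (25 + x1 ^ 2) * x1) * x2 + (25 + x1 ^ 2) * (25 - x1 ^ 2) := by
    linear_combination h3
  have b2 : padicNorm p (z * z' - x1 ^ 2) * M ≤ 1 := by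
    have e : padicNorm p ((z * z' - x1 ^ 2) * (x1 - x2) ^ 2) ≤ 1 * M := by
      rw [r2]
      refine n_add (n_mul (n_mul1 (n_mul1 i2 (n_add i25 hx2')) hx) le_rfl) ?_
      rw [one_mul]
      exact (n_mul1 (n_add i25 hx2') (n_sub i25 hx2')).trans hD.le
    rw [padicNorm.mul, n_pow, hd, one_mul] at e
    by_contra hc
    push Not at hc
    nlinarith [mul_lt_mul_of_pos_right hc hM0]
  by_contra hw
  push Not at hw
  set w := padicNorm p (z - x1) with hwd
  have hzw : padicNorm p z ≤ w := by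
    have : z = (z - x1) + x1 := by ring
    rw [this]
    exact n_add le_rfl (hx.trans hw)
  have r3 : (z - x1) ^ 2 = (z + z' - 2 * x1) * z - (z * z' - x1 ^ 2) := by ring
  have b3 : w ^ 2 ≤ max (padicNorm p (z + z' - 2 * x1) * w) (padicNorm p (z * z' - x1 ^ 2)) := by
    rw [hwd, ← n_pow, r3]
    refine n_sub ?_ (le_max_right _ _)
    rw [padicNorm.mul]
    exact (mul_le_mul_of_nonneg_left hzw (padicNorm.nonneg _)).trans (le_max_left _ _)
  have b4 : w ^ 2 * M ≤ w := by
    rcases le_max_iff.mp b3 with h | h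
    · calc w ^ 2 * M ≤ (padicNorm p (z + z' - 2 * x1) * w) * M :=
            mul_le_mul_of_nonneg_right h hM0.le
        _ = (padicNorm p (z + z' - 2 * x1) * M) * w := by ring
        _ ≤ 1 * w := mul_le_mul_of_nonneg_right b1 (by linarith)
        _ = w := one_mul w
    · calc w ^ 2 * M ≤ padicNorm p (z * z' - x1 ^ 2) * M := mul_le_mul_of_nonneg_right h hM0.le
        _ ≤ 1 := b2
        _ ≤ w := hw
  have w1 : w * (w * M) ≤ w * 1 := by linarith [show w * (w * M) = w ^ 2 * M by ring]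
  have w2 : w * M ≤ 1 := le_of_mul_le_mul_left w1 (by linarith)
  have w3 : 1 * M ≤ w * M := mul_le_mul_of_nonneg_right hw hM0.le
  linarith

/-! ### torsion -/

/-- norm of `x(2R)` for a point in the kernel of reduction at 2 -/
lemma dbl_big (g : Grp) (R : E) (hR : R ≠ 0) (h : 1 < padicNorm 2 (xc R)) :
    R + R ≠ 0 ∧ padicNorm 2 (xc (R + R)) = 4 * padicNorm 2 (xc R) := by
  have e := g.eqn R hR
  set x := xc R with hx
  set N := padicNorm 2 x with hN
  have n25 : padicNorm 2 (25 : ℚ) = 1 := by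
    have := (padicNorm.nat_eq_one_iff (p := 2) 25).mpr (by norm_num)
    exact_mod_cast this
  have hx0 : x ≠ 0 := by
    intro h0
    rw [hN, h0] at h
    simp at h
    linarith
  have hN2 : 1 < N ^ 2 := by nlinarith
  have a1 : padicNorm 2 (x ^ 2 + 25) = N ^ 2 := by
    rw [padicNorm.add_eq_max_of_ne, n_pow, n25]
    · exact max_eq_left hN2.le
    · rw [n_pow, n25]
      exact hN2.ne'
  have a2 : padicNorm 2 (x ^ 2 - 25) = N ^ 2 := by
    rw [sub_eq_add_neg, padicNorm.add_eq_max_of_ne, n_pow, padicNorm.neg, n25]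
    · exact max_eq_left hN2.le
    · rw [n_pow, padicNorm.neg, n25]
      exact hN2.ne'
  have a3 : padicNorm 2 (yc R ^ 2) = N ^ 3 := by
    rw [e, show x ^ 3 - 25 * x = x * (x ^ 2 - 25) by ring, padicNorm.mul, a2]
    ring
  have hy : yc R ≠ 0 := by
    intro h0
    rw [h0] at a3
    simp at a3
    have : 0 < N ^ 3 := by positivity
    rw [← a3] at this
    exact lt_irrefl _ this
  obtain ⟨b1, b2⟩ := g.dbl R hR hy
  refine ⟨b1, ?_⟩
  have n4 : padicNorm 2 (4 : ℚ) = 1 / 4 := by
    have : (4 : ℚ) = 2 ^ 2 := by norm_num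
    rw [this, n_pow]
    have h2 : padicNorm 2 (2 : ℚ) = 1 / 2 := by
      have := padicNorm.padicNorm_p_of_prime (p := 2)
      simpa using this
    rw [h2]
    norm_num
  have b3 := congrArg (padicNorm 2) b2
  rw [padicNorm.mul, padicNorm.mul, n4, a3, n_pow, a1] at b3
  have hN0 : N ≠ 0 := by
    intro h0
    rw [h0] at h
    linarith
  have hN3 : N ^ 3 ≠ 0 := pow_ne_zero _ hN0
  have : padicNorm 2 (xc (R + R)) * N ^ 3 = (4 * N) * N ^ 3 := by linear_combination 4 * b3
  exact mul_right_cancel₀ hN3 this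

/-- a double is in the kernel of reduction at 2 -/
lemma dbl_ker (g : Grp) (R : E) (hR : R ≠ 0) (hy : yc R ≠ 0) :
    1 < padicNorm 2 (xc (R + R)) := by
  have e := g.eqn R hR
  rcases lt_or_ge 1 (padicNorm 2 (xc R)) with h | h
  · rw [(dbl_big g R hR h).2]
    linarith
  obtain ⟨b1, b2⟩ := g.dbl R hR hy
  set x := xc R with hx
  have hx0 : x ≠ 0 := by
    intro h0
    rw [h0] at e
    apply hy
    have : yc R ^ 2 = 0 := by rw [e]; ring
    exact pow_eq_zero_iff (two_ne_zero) |>.mp this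
  have h2 : padicNorm 2 (2 : ℚ) = 1 / 2 := by
    have := padicNorm.padicNorm_p_of_prime (p := 2)
    simpa using this
  have n4 : padicNorm 2 (4 : ℚ) = 1 / 4 := by
    have : (4 : ℚ) = 2 ^ 2 := by norm_num
    rw [this, n_pow, h2]
    norm_num
  have n25 : padicNorm 2 (25 : ℚ) = 1 := by
    have := (padicNorm.nat_eq_one_iff (p := 2) 25).mpr (by norm_num)
    exact_mod_cast this
  have b3 := congrArg (padicNorm 2) b2
  rw [padicNorm.mul, padicNorm.mul, n4, n_pow (x ^ 2 + 25)] at b3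
  have hyy : 0 < padicNorm 2 (yc R ^ 2) :=
    lt_of_le_of_ne (padicNorm.nonneg _) (Ne.symm (padicNorm.nonzero (pow_ne_zero 2 hy)))
  have hfac : padicNorm 2 (yc R ^ 2) = padicNorm 2 x * padicNorm 2 (x ^ 2 - 25) := by
    rw [e, show x ^ 3 - 25 * x = x * (x ^ 2 - 25) by ring, padicNorm.mul]
  rcases lt_or_eq_of_le h with h1 | h1
  · -- `x` even
    have hx2 : padicNorm 2 (x ^ 2) < 1 := by
      rw [n_pow]
      have := padicNorm.nonneg (p := 2) x
      nlinarith
    have a1 : padicNorm 2 (x ^ 2 + 25) = 1 := by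
      rw [padicNorm.add_eq_max_of_ne, n25]
      · exact max_eq_right hx2.le
      · rw [n25]
        exact hx2.ne
    have a2 : padicNorm 2 (yc R ^ 2) ≤ 1 := by
      rw [hfac]
      have : padicNorm 2 (x ^ 2 - 25) ≤ 1 := n_sub hx2.le n25.le
      have h0 := padicNorm.nonneg (p := 2) (x ^ 2 - 25)
      have h0' := padicNorm.nonneg (p := 2) x
      nlinarith
    rw [a1] at b3
    nlinarith [padicNorm.nonneg (p := 2) (xc (R + R))]
  · -- `x` odd
    have hval : padicNorm 2 (x ^ 2 - 25) ≤ 1 / 8 := by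
      have hden : ¬ 2 ∣ x.den := by
        intro hd
        have : padicNorm 2 (x.den : ℚ) < 1 := (padicNorm.nat_lt_one_iff _).mpr hd
        have hnum : padicNorm 2 (x.num : ℚ) = padicNorm 2 (x.den : ℚ) := by
          have h5 : (x.num : ℚ) = x * x.den := (Rat.mul_den_eq_num x).symm
          rw [h5, padicNorm.mul, h1, one_mul]
        have h6 : (2 : ℤ) ∣ x.num := by
          have := (padicNorm.int_lt_one_iff (p := 2) x.num).mp (by rw [hnum]; exact this)
          exact_mod_cast this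
        have h7 := x.reduced
        have h8 : 2 ∣ x.num.natAbs := by
          have := Int.natAbs_dvd_natAbs.mpr h6
          simpa using this
        have := Nat.dvd_gcd h8 hd
        rw [Nat.Coprime] at h7
        rw [h7] at this
        norm_num at this
      have hdn : padicNorm 2 (x.den : ℚ) = 1 := (padicNorm.nat_eq_one_iff _).mpr hden
      have hnm : padicNorm 2 (x.num : ℚ) = 1 := by
        have h5 : (x.num : ℚ) = x * x.den := (Rat.mul_den_eq_num x).symm
        rw [h5, padicNorm.mul, h1, one_mul, hdn]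
      have hnum : ¬ (2 : ℤ) ∣ x.num := by
        have := (padicNorm.int_eq_one_iff (p := 2) x.num).mp hnm
        exact_mod_cast this
      have hden' : ¬ (2 : ℤ) ∣ (x.den : ℤ) := by
        intro h9
        exact hden (by exact_mod_cast h9)
      have h8 : ((2 ^ 3 : ℕ) : ℤ) ∣ x.num ^ 2 - 25 * (x.den : ℤ) ^ 2 := by
        have o1 : Odd x.num := Int.not_even_iff_odd.mp (fun h => hnum h.two_dvd)
        have o2 : Odd (x.den : ℤ) := Int.not_even_iff_odd.mp (fun h => hden' h.two_dvd)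
        have s1 := Int.sq_mod_four_eq_one_of_odd o1
        obtain ⟨a, ha⟩ := o1
        obtain ⟨b, hb⟩ := o2
        have ea : 2 ∣ a * (a + 1) := (Int.even_mul_succ_self a).two_dvd
        have eb : 2 ∣ b * (b + 1) := (Int.even_mul_succ_self b).two_dvd
        obtain ⟨c, hc⟩ := ea
        obtain ⟨d, hd⟩ := eb
        refine ⟨c - 25 * d - 3, ?_⟩
        rw [ha, hb]
        push_cast
        linear_combination 4 * hc - 100 * hd
      have h9 := (padicNorm.dvd_iff_norm_le (p := 2) (n := 3)).mp h8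
      have h10 : padicNorm 2 ((x.num ^ 2 - 25 * (x.den : ℤ) ^ 2 : ℤ) : ℚ) ≤ 1 / 8 := by
        refine h9.trans (le_of_eq ?_)
        norm_num [zpow_neg]
      have h11 : ((x.num ^ 2 - 25 * (x.den : ℤ) ^ 2 : ℤ) : ℚ) = (x ^ 2 - 25) * (x.den : ℚ) ^ 2 := by
        have h5 : (x.num : ℚ) = x * x.den := (Rat.mul_den_eq_num x).symm
        push_cast
        rw [h5]
        ring
      rw [h11, padicNorm.mul, n_pow, hdn] at h10
      simpa using h10
    have n50 : padicNorm 2 (50 : ℚ) = 1 / 2 := by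
      rw [show (50 : ℚ) = 2 * 25 by norm_num, padicNorm.mul, h2, n25]
      norm_num
    have a1 : padicNorm 2 (x ^ 2 + 25) = 1 / 2 := by
      rw [show x ^ 2 + 25 = (x ^ 2 - 25) + 50 by ring, padicNorm.add_eq_max_of_ne, n50]
      · exact max_eq_right (hval.trans (by norm_num))
      · rw [n50]
        intro h0
        rw [h0] at hval
        norm_num at hval
    have a2 : padicNorm 2 (yc R ^ 2) ≤ 1 / 8 := by
      rw [hfac, h1, one_mul]
      exact hval
    rw [a1] at b3
    nlinarith [padicNorm.nonneg (p := 2) (xc (R + R))]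

lemma pow_two_mul (g : Grp) (Q : E) (hQ : Q ≠ 0) (h : 1 < padicNorm 2 (xc Q)) (k : ℕ) :
    (2 ^ k) • Q ≠ 0 ∧ padicNorm 2 (xc ((2 ^ k) • Q)) = 4 ^ k * padicNorm 2 (xc Q) := by
  induction k with
  | zero => simpa using hQ
  | succ k ih =>
    have h1 : (1 : ℚ) < padicNorm 2 (xc ((2 ^ k) • Q)) := by
      rw [ih.2]
      have : (1 : ℚ) ≤ 4 ^ k := one_le_pow₀ (by norm_num)
      nlinarith
    obtain ⟨a, b⟩ := dbl_big g _ ih.1 h1
    rw [pow_succ, mul_two, add_nsmul]
    refine ⟨a, ?_⟩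
    rw [b, ih.2]
    ring

theorem tor (g : Grp) : Tor := by
  intro R hRR n hn hn0
  have hR : R ≠ 0 := by
    rintro rfl
    exact hRR (add_zero 0)
  have hy : yc R ≠ 0 := fun h => hRR (g.dbl0 R hR h)
  have hk := dbl_ker g R hR hy
  set Q := R + R with hQ
  have hnQ : n • Q = 0 := by rw [hQ, nsmul_add, hn0, add_zero]
  have hmod : ∀ m : ℕ, m • Q = (m % n) • Q := by
    intro m
    conv_lhs => rw [← Nat.mod_add_div m n]
    rw [add_nsmul, mul_comm n, mul_nsmul', hnQ, nsmul_zero, add_zero]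
  obtain ⟨i, j, hij, he⟩ := Finite.exists_ne_map_eq_of_infinite
    (fun k : ℕ => (⟨2 ^ k % n, Nat.mod_lt _ hn⟩ : Fin n))
  have he' : 2 ^ i % n = 2 ^ j % n := by simpa using he
  have h1 : (2 ^ i) • Q = (2 ^ j) • Q := by rw [hmod (2 ^ i), hmod (2 ^ j), he']
  have h2 := (pow_two_mul g Q hRR hk i).2
  have h3 := (pow_two_mul g Q hRR hk j).2
  rw [h1, h3] at h2
  have h4 : (4 : ℚ) ^ j = 4 ^ i := mul_right_cancel₀ (by linarith) h2
  exact hij (pow_right_injective₀ (by norm_num) (by norm_num) h4).symm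

end Pool.Agent.Y921.RW
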